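import Pool.Agent.N408.IB.Stm

open Real Set MeasureTheory Filter Topology
open IB408

namespace N239.IB.FIX

noncomputable section

theorem b_pos : 0 < b := by unfold b; norm_num

theorem b3 : b ^ 3 ≤ 1 / 1000 := by unfold b; norm_num

theorem b3_pos : 0 < b ^ 3 := pow_pos b_pos 3

theorem cl_cont : Continuous cl := by
  unfold cl
  fun_prop

theorem cl_neg (x : ℝ) : cl (-x) = -cl x := by
  unfold cl
  have hb := b_pos
  rcases le_total x b with h1 | h1 <;> rcases le_total (-x) b with h2 | h2 <;>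
    simp only [min_eq_left, min_eq_right, h1, h2]
  · rw [max_eq_right (by linarith), max_eq_right (by linarith)]
  · rw [max_eq_right (by linarith), max_eq_left (by linarith), neg_neg]
  · rw [max_eq_left (by linarith), max_eq_right (by linarith)]
  · linarith

theorem cl_abs (x : ℝ) : |cl x| ≤ b := by
  unfold cl
  have hb := b_pos
  rw [abs_le]
  refine ⟨le_max_left _ _, max_le (by linarith) (min_le_right _ _)⟩

theorem cl_of_ge {x : ℝ} (h : b ≤ |x|) : cl x = b ∨ cl x = -b := by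
  unfold cl
  have hb := b_pos
  rcases le_abs.1 h with h1 | h1
  · left
    rw [min_eq_right h1, max_eq_right (by linarith)]
  · right
    rw [min_eq_left (by linarith), max_eq_left (by linarith)]

theorem sq_le (x : ℝ) : 0 ≤ (cl x / b) ^ 2 ∧ (cl x / b) ^ 2 ≤ 1 := by
  refine ⟨sq_nonneg _, ?_⟩
  rw [sq_le_one_iff_abs_le_one, abs_div, abs_of_pos b_pos, div_le_one b_pos]
  exact cl_abs x

/-- the denominator minus one -/
def X (w : ℝ) (q : ℝ → ℝ) (x : ℝ) : ℝ := Av q w (cl x) - (cl x / b) ^ 2 * Av q w b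

theorem Tw_eq (w : ℝ) (q : ℝ → ℝ) (x : ℝ) : Tw w q x = 1 / (1 + X w q x) - 1 := by
  unfold Tw X
  ring_nf

theorem X_le (h2 : S_BAS2) {q : ℝ → ℝ} {w : ℝ} (hq : Adm q) (hw : 0 ≤ w) (hw' : w ≤ 1 / 10)
    (x : ℝ) : |X w q x| ≤ 2 / 5 * b ^ 3 := by
  obtain ⟨-, -, -, -, -, -, -, -, -, -, hc, hAv, -, -⟩ := h2 q w hq hw hw'
  unfold X
  obtain ⟨s0, s1⟩ := sq_le x
  have e1 := abs_le.1 (hAv (cl x))
  have e2 : |(cl x / b) ^ 2 * Av q w b| ≤ b ^ 3 / 5 := by
    rw [abs_mul, abs_of_nonneg s0]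
    have := hAv b
    have h3 := abs_nonneg (Av q w b)
    nlinarith
  have e3 := abs_le.1 e2
  rw [abs_le]
  constructor <;> linarith [e1.1, e1.2, e3.1, e3.2]

theorem Tw_adm (h2 : S_BAS2) {q : ℝ → ℝ} {w : ℝ} (hq : Adm q) (hw : 0 ≤ w) (hw' : w ≤ 1 / 10) :
    Adm (Tw w q) := by
  have hX := X_le h2 hq hw hw'
  have hb3 := b3
  have hb3p := b3_pos
  obtain ⟨-, -, -, -, -, -, -, -, -, -, hc, hAv, hev, -⟩ := h2 q w hq hw hw'
  have hXc : Continuous (X w q) := by
    unfold X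
    have := cl_cont
    exact (hc.comp this).sub (((this.div_const b).pow 2).mul continuous_const)
  have hd : ∀ x, 1 + X w q x ≠ 0 := by
    intro x
    have := (abs_le.1 (hX x)).1
    have h3 : 0 < 1 + X w q x := by linarith
    exact h3.ne'
  have e : Tw w q = fun x => 1 / (1 + X w q x) - 1 := funext (Tw_eq w q)
  refine ⟨?_, ?_, ?_, ?_⟩
  · rw [e]
    exact (continuous_const.div (continuous_const.add hXc) hd).sub continuous_const
  · intro x
    rw [Tw_eq, Tw_eq]
    have : X w q (-x) = X w q x := by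
      unfold X
      rw [cl_neg, hev]
      ring
    rw [this]
  · intro x hx
    rw [Tw_eq]
    have : X w q x = 0 := by
      unfold X
      have hb := b_pos
      rcases cl_of_ge hx with h | h
      · rw [h, div_self hb.ne']
        ring
      · rw [h, hev, neg_div, div_self hb.ne']
        ring
    rw [this]
    norm_num
  · intro x
    rw [Tw_eq]
    have h3 := abs_le.1 (hX x)
    have h4 : 0 < 1 + X w q x := by linarith [h3.1]
    have h5 : 1 / (1 + X w q x) - 1 = -X w q x / (1 + X w q x) := by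
      field_simp
      ring
    rw [h5, abs_div, abs_of_pos h4, abs_neg, div_le_iff₀ h4]
    have h6 := hX x
    nlinarith [h3.1]

theorem Tw_dif (h2 : S_BAS2) (h3 : S_DIF) {q q' : ℝ → ℝ} {w w' η : ℝ} (hq : Adm q) (hq' : Adm q')
    (hw : 0 ≤ w) (hw1 : w ≤ 1 / 10) (hw' : 0 ≤ w') (hw1' : w' ≤ 1 / 10)
    (hη : ∀ x, |q x - q' x| ≤ η) (x : ℝ) :
    |Tw w q x - Tw w' q' x| ≤ 101 / 50 * (η / 100 + |w - w'|) := by
  have hA := h3 q q' w w' η hq hq' hw hw1 hw' hw1' hη
  have hX := X_le h2 hq hw hw1 x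
  have hX' := X_le h2 hq' hw' hw1' x
  have hb3 := b3
  have hη0 : 0 ≤ η := (abs_nonneg _).trans (hη 0)
  have hD : 0 ≤ η / 100 + |w - w'| := by positivity
  have hXX : |X w' q' x - X w q x| ≤ 2 * (η / 100 + |w - w'|) := by
    have e : X w' q' x - X w q x = -(Av q w (cl x) - Av q' w' (cl x)) +
        (cl x / b) ^ 2 * (Av q w b - Av q' w' b) := by
      unfold X
      ring
    rw [e]
    refine (abs_add_le _ _).trans ?_
    rw [abs_neg, abs_mul, abs_of_nonneg (sq_nonneg (cl x / b))]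
    obtain ⟨s0, s1⟩ := sq_le x
    have e1 := hA (cl x)
    have e2 := hA b
    have e3 := abs_nonneg (Av q w b - Av q' w' b)
    nlinarith
  have h4 := abs_le.1 hX
  have h4' := abs_le.1 hX'
  have p1 : 499 / 500 ≤ 1 + X w q x := by linarith [h4.1]
  have p2 : 499 / 500 ≤ 1 + X w' q' x := by linarith [h4'.1]
  rw [Tw_eq, Tw_eq]
  have e : 1 / (1 + X w q x) - 1 - (1 / (1 + X w' q' x) - 1) =
      (X w' q' x - X w q x) / ((1 + X w q x) * (1 + X w' q' x)) := by
    have n1 : 1 + X w q x ≠ 0 := by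
      intro h
      rw [h] at p1
      norm_num at p1
    have n2 : 1 + X w' q' x ≠ 0 := by
      intro h
      rw [h] at p2
      norm_num at p2
    field_simp
    ring
  have p3 : 100 / 101 ≤ (1 + X w q x) * (1 + X w' q' x) := by nlinarith
  have p4 : 0 < (1 + X w q x) * (1 + X w' q' x) := by linarith
  rw [e, abs_div, abs_of_pos p4, div_le_iff₀ p4]
  nlinarith

theorem zero_adm : Adm (fun _ => (0 : ℝ)) := by
  refine ⟨continuous_const, fun _ => rfl, fun _ _ => rfl, fun x => ?_⟩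
  rw [abs_zero]
  exact b3_pos.le

/-- the iterates -/
def it (w : ℝ) : ℕ → ℝ → ℝ
  | 0 => fun _ => 0
  | n + 1 => Tw w (it w n)

theorem it_adm (h2 : S_BAS2) {w : ℝ} (hw : 0 ≤ w) (hw' : w ≤ 1 / 10) (n : ℕ) : Adm (it w n) := by
  induction n with
  | zero => exact zero_adm
  | succ n ih => exact Tw_adm h2 ih hw hw'

theorem it_dif (h2 : S_BAS2) (h3 : S_DIF) {w : ℝ} (hw : 0 ≤ w) (hw' : w ≤ 1 / 10) (n : ℕ) (x : ℝ) :
    |it w n x - it w (n + 1) x| ≤ 1 * (1 / 40) ^ n := by
  induction n generalizing x with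
  | zero =>
    have h4 := (it_adm h2 hw hw' 1).2.2.2 x
    have h5 : it w 0 x = 0 := rfl
    rw [h5, zero_sub, abs_neg]
    have := b3
    linarith
  | succ n ih =>
    have h4 := Tw_dif h2 h3 (it_adm h2 hw hw' n) (it_adm h2 hw hw' (n + 1)) hw hw' hw hw' ih x
    rw [sub_self, abs_zero, add_zero] at h4
    have h5 : (0 : ℝ) < (1 / 40) ^ n := by positivity
    calc |it w (n + 1) x - it w (n + 1 + 1) x|
        ≤ 101 / 50 * (1 * (1 / 40) ^ n / 100) := h4
      _ ≤ 1 * (1 / 40) ^ (n + 1) := by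
          rw [pow_succ]
          linarith

theorem exists_fix (h2 : S_BAS2) (h3 : S_DIF) {w : ℝ} (hw : 0 ≤ w) (hw' : w ≤ 1 / 10) :
    ∃ q : ℝ → ℝ, Adm q ∧ ∀ x, q x = Tw w q x := by
  have hc : ∀ x, CauchySeq fun n => it w n x := fun x =>
    cauchySeq_of_le_geometric (1 / 40) 1 (by norm_num) fun n => by
      rw [Real.dist_eq]
      exact it_dif h2 h3 hw hw' n x
  choose q hq using fun x => cauchySeq_tendsto_of_complete (hc x)
  have hqd : ∀ n x, |it w n x - q x| ≤ 2 * (1 / 40) ^ n := by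
    intro n x
    have := dist_le_of_le_geometric_of_tendsto (1 / 40) 1 (by norm_num) (fun n => by
      rw [Real.dist_eq]
      exact it_dif h2 h3 hw hw' n x) (hq x) n
    rw [Real.dist_eq] at this
    have h5 : (0 : ℝ) < (1 / 40) ^ n := by positivity
    refine this.trans ?_
    rw [div_le_iff₀ (by norm_num)]
    linarith
  have hlim : Tendsto (fun n : ℕ => 2 * (1 / 40 : ℝ) ^ n) atTop (𝓝 0) := by
    have := (tendsto_pow_atTop_nhds_zero_of_lt_one (r := (1 / 40 : ℝ)) (by norm_num)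
      (by norm_num)).const_mul 2
    rwa [mul_zero] at this
  have hu : TendstoUniformly (fun n => it w n) q atTop := by
    rw [Metric.tendstoUniformly_iff]
    intro ε hε
    filter_upwards [hlim.eventually_lt_const hε] with n hn x
    rw [dist_comm, Real.dist_eq]
    exact (hqd n x).trans_lt hn
  have hqc : Continuous q := hu.continuous (Frequently.of_forall fun n => (it_adm h2 hw hw' n).1)
  have hqa : Adm q := by
    refine ⟨hqc, fun x => ?_, fun x hx => ?_, fun x => ?_⟩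
    · refine tendsto_nhds_unique (hq (-x)) ?_
      refine (hq x).congr fun n => ?_
      exact ((it_adm h2 hw hw' n).2.1 x).symm
    · refine tendsto_nhds_unique (hq x) ?_
      refine tendsto_const_nhds.congr fun n => ?_
      exact ((it_adm h2 hw hw' n).2.2.1 x hx).symm
    · exact le_of_tendsto (hq x).abs (Eventually.of_forall fun n => (it_adm h2 hw hw' n).2.2.2 x)
  refine ⟨q, hqa, fun x => ?_⟩
  have h4 : ∀ n, |q x - Tw w q x| ≤ 2 * (2 * (1 / 40) ^ n) := by
    intro n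
    have h5 := Tw_dif h2 h3 (it_adm h2 hw hw' n) hqa hw hw' hw hw' (hqd n) x
    rw [sub_self, abs_zero, add_zero] at h5
    have h6 := hqd (n + 1) x
    have h7 : (0 : ℝ) < (1 / 40) ^ n := by positivity
    have e : it w (n + 1) x = Tw w (it w n) x := rfl
    rw [e] at h6
    rw [pow_succ] at h6
    have h8 : |q x - Tw w q x| ≤ |Tw w (it w n) x - q x| + |Tw w (it w n) x - Tw w q x| := by
      have := abs_sub_le (q x) (Tw w (it w n) x) (Tw w q x)
      rw [abs_sub_comm (q x) (Tw w (it w n) x)] at this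
      exact this
    linarith
  have h5 : |q x - Tw w q x| ≤ 0 := by
    have h6 : Tendsto (fun n : ℕ => 2 * (2 * (1 / 40 : ℝ) ^ n)) atTop (𝓝 0) := by
      have := hlim.const_mul 2
      rwa [mul_zero] at this
    exact ge_of_tendsto' h6 h4
  exact sub_eq_zero.1 (abs_nonpos_iff.1 h5)

theorem t (h2 : S_BAS2) (h3 : S_DIF) : IB408.S_FIX := by
  classical
  have hex : ∀ w : ℝ, ∃ q : ℝ → ℝ, 0 ≤ w → w ≤ 1 / 10 → Adm q ∧ ∀ x, q x = Tw w q x := by
    intro w
    by_cases h : 0 ≤ w ∧ w ≤ 1 / 10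
    · obtain ⟨q, hq⟩ := exists_fix h2 h3 h.1 h.2
      exact ⟨q, fun _ _ => hq⟩
    · exact ⟨fun _ => 0, fun h0 h1 => absurd ⟨h0, h1⟩ h⟩
  choose Q hQ using hex
  refine ⟨Q, fun w hw hw' => hQ w hw hw', ?_⟩
  have key : ∀ w ∈ Icc (0 : ℝ) (1 / 10), ∀ w' ∈ Icc (0 : ℝ) (1 / 10),
      |Av (Q w) w b - Av (Q w') w' b| ≤ 2 * |w - w'| := by
    intro w hw w' hw'
    obtain ⟨ha, hf⟩ := hQ w hw.1 hw.2
    obtain ⟨ha', hf'⟩ := hQ w' hw'.1 hw'.2
    have hbd : BddAbove (Set.range fun x => |Q w x - Q w' x|) := by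
      refine ⟨2 * b ^ 3, ?_⟩
      rintro _ ⟨x, rfl⟩
      have e1 := abs_le.1 (ha.2.2.2 x)
      have e2 := abs_le.1 (ha'.2.2.2 x)
      rw [abs_le]
      constructor <;> linarith [e1.1, e1.2, e2.1, e2.2]
    set S : ℝ := ⨆ x, |Q w x - Q w' x| with hS
    have hle : ∀ x, |Q w x - Q w' x| ≤ S := fun x => le_ciSup hbd x
    have h4 : S ≤ 101 / 50 * (S / 100 + |w - w'|) := by
      refine ciSup_le fun x => ?_
      rw [hf x, hf' x]
      exact Tw_dif h2 h3 ha ha' hw.1 hw.2 hw'.1 hw'.2 hle x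
    have h5 := h3 (Q w) (Q w') w w' S ha ha' hw.1 hw.2 hw'.1 hw'.2 hle b
    have h6 := abs_nonneg (w - w')
    linarith
  intro w hw
  rw [Metric.continuousWithinAt_iff]
  intro ε hε
  refine ⟨ε / 3, by positivity, fun w' hw' hd => ?_⟩
  rw [Real.dist_eq] at hd ⊢
  have := key w' hw' w hw
  linarith

end

end N239.IB.FIX
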